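import Mathlib
import Pool.Agent.Helper81.ZG.Final

/-!
# Every abc triple: the radical is above every power of `log c`
-/

set_option autoImplicit false

namespace Pool.Agent.Results.MP_4ab349_nt.AllTriples

/-- The radical of `a b c` is above every power of `log c` with finitely many exceptions, for all coprime positive
integers `a`, `b` and `c = a + b`; so `log c` is at most a constant times every power of the radical, and explicitly at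
most `N ^ (C log log log N / log log N)` with `N` the maximum of `16` and the radical. The second form also holds with
the radical of `x y g`, where `x`, `y` are two of the entries `a`, `b`, `c` and `g ≥ c ^ σ` is a divisor of the third. -/
theorem result :
    (∀ A : ℝ, {x : ℕ × ℕ | 0 < x.1 ∧ 0 < x.2 ∧ Nat.Coprime x.1 x.2 ∧
      ((∏ p ∈ (x.1 * x.2 * (x.1 + x.2)).primeFactors, p : ℕ) : ℝ) ≤
        Real.log ((x.1 + x.2 : ℕ) : ℝ) ^ A}.Finite) ∧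
    (∀ ε : ℝ, 0 < ε → ∃ K : ℝ, ∀ a b : ℕ, 0 < a → 0 < b → Nat.Coprime a b →
      Real.log ((a + b : ℕ) : ℝ) ≤ K * ((∏ p ∈ (a * b * (a + b)).primeFactors, p : ℕ) : ℝ) ^ ε) ∧
    (∃ C : ℝ, ∀ a b : ℕ, 0 < a → 0 < b → Nat.Coprime a b → ∀ N : ℝ,
      N = max 16 ((∏ p ∈ (a * b * (a + b)).primeFactors, p : ℕ) : ℝ) →
      Real.log ((a + b : ℕ) : ℝ) ≤
        N ^ (C * Real.log (Real.log (Real.log N)) / Real.log (Real.log N))) ∧
    ∀ σ ε : ℝ, 0 < σ → 0 < ε → ∃ K : ℝ, ∀ a b c x y g : ℕ, 0 < a → 0 < b → Nat.Coprime a b → c = a + b →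
      ((x = a ∧ y = b ∧ g ∣ c) ∨ (x = a ∧ y = c ∧ g ∣ b) ∨ (x = b ∧ y = c ∧ g ∣ a)) → (c : ℝ) ^ σ ≤ (g : ℝ) →
      Real.log (c : ℝ) ≤ K * ((∏ p ∈ (x * y * g).primeFactors, p : ℕ) : ℝ) ^ ε := by
  have h := fun (σ : ℝ) (hσ : 0 < σ) => Pool.Agent.Helper81.ZG.divisor_forms σ hσ
  obtain ⟨⟨C, _, h1⟩, h2, h3⟩ := h 1 one_pos
  have hp : ∀ a b : ℕ, ((a + b : ℕ) : ℝ) ^ (1 : ℝ) ≤ ((a + b : ℕ) : ℝ) := fun a b => (Real.rpow_one _).le
  refine ⟨?_, ?_, ⟨C, ?_⟩, ?_⟩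
  · intro A
    refine (h3 A).subset ?_
    rintro ⟨a, b⟩ ⟨ha, hb, hab, hr⟩
    exact ⟨ha, hb, hab, a + b, a, b, a + b, rfl, Or.inl ⟨rfl, rfl, dvd_rfl⟩, hp a b, hr⟩
  · intro ε hε
    obtain ⟨K, _, hKe⟩ := h2 ε hε
    exact ⟨K, fun a b ha hb hab =>
      hKe a b (a + b) a b (a + b) ha hb hab rfl (Or.inl ⟨rfl, rfl, dvd_rfl⟩) (hp a b)⟩
  · intro a b ha hb hab N hN
    exact h1 a b (a + b) a b (a + b) ha hb hab rfl (Or.inl ⟨rfl, rfl, dvd_rfl⟩) (hp a b) N hN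
  · intro σ ε hσ hε
    obtain ⟨K, _, hKe⟩ := (h σ hσ).2.1 ε hε
    exact ⟨K, hKe⟩

end Pool.Agent.Results.MP_4ab349_nt.AllTriples
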