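import Mathlib
import Pool.Agent.Helper39.RAC.Crisp

/-!
# Ordered by radical, almost all abc triples have `rad(abc) > c ^ (3 - ε)`

Pairs `(a, b)` of coprime positive integers, `c = a + b` of any size, radical = product of the
distinct primes dividing `a b c`.
-/

set_option autoImplicit false

open Finset

namespace Pool.Agent.Results.MP_4ab349_nt.AlmostAllByRadical

/-- The product over all primes
`P = ∏_p ((1 - 1/p) (1 - 2/p) + 3 (1 - 1/p)^2 / (p - p^(2/3)))` converges and is positive. For every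
`ε > 0` there are `δ > 0` and `C` such that for all integers `Z ≥ 1` the set of ALL pairs `(a, b)` of
coprime positive integers with radical of `a b c` at most `Z` (`c = a + b`, of any size) is finite
and
* the number of its elements differs from `K Z ^ (2 / 3)`, `K = Γ(1/3)^2 / (2 Γ(2/3)) * P`, by at
  most `C Z ^ (2 / 3 - δ)`;
* at most `C Z ^ (2 / 3 - δ)` of them have radical at most `c ^ (3 - ε)`. -/
theorem result : ∃ P : ℝ, 0 < P ∧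
    HasProd (fun p : Nat.Primes => (1 - 1 / ((p : ℕ) : ℝ)) * (1 - 2 / ((p : ℕ) : ℝ)) +
      3 * (1 - 1 / ((p : ℕ) : ℝ)) ^ 2 /
        (((p : ℕ) : ℝ) - ((p : ℕ) : ℝ) ^ (2 / 3 : ℝ))) P ∧
    ∀ ε : ℝ, 0 < ε → ∃ δ : ℝ, 0 < δ ∧ ∃ C : ℝ, ∀ Z : ℕ, 1 ≤ Z →
      {t : ℕ × ℕ | 0 < t.1 ∧ 0 < t.2 ∧ t.1.Coprime t.2 ∧
        (∏ p ∈ (t.1 * t.2 * (t.1 + t.2)).primeFactors, p) ≤ Z}.Finite ∧
      |(({t : ℕ × ℕ | 0 < t.1 ∧ 0 < t.2 ∧ t.1.Coprime t.2 ∧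
          (∏ p ∈ (t.1 * t.2 * (t.1 + t.2)).primeFactors, p) ≤ Z}.ncard : ℕ) : ℝ) -
        Real.Gamma (1 / 3) ^ 2 / (2 * Real.Gamma (2 / 3)) * P * (Z : ℝ) ^ (2 / 3 : ℝ)| ≤
          C * (Z : ℝ) ^ (2 / 3 - δ) ∧
      (({t : ℕ × ℕ | 0 < t.1 ∧ 0 < t.2 ∧ t.1.Coprime t.2 ∧
          (∏ p ∈ (t.1 * t.2 * (t.1 + t.2)).primeFactors, p) ≤ Z ∧
          ((∏ p ∈ (t.1 * t.2 * (t.1 + t.2)).primeFactors, p : ℕ) : ℝ) ≤
            ((t.1 + t.2 : ℕ) : ℝ) ^ (3 - ε)}.ncard : ℕ) : ℝ) ≤ C * (Z : ℝ) ^ (2 / 3 - δ) :=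
  Helper39.RAC.crisp

end Pool.Agent.Results.MP_4ab349_nt.AlmostAllByRadical
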