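import Mathlib
import Pool.Agent.Helper21.EN.All

/-!
# Entries of exceptional abc triples: fewer than the square root
-/

set_option autoImplicit false

namespace Pool.Agent.Results.MP_4ab349_nt.ExceptionalEntries

/-- There are `δ > 0` and `C` such that for all `X ≥ 1` at most `C X ^ (1 / 2 - δ)` natural
numbers `n` are an entry (`n = a`, `n = b` or `n = a + b`) of a pair of coprime positive integers
`a`, `b` with `a + b ≤ X` and `rad (a b (a + b)) ≤ (a + b) ^ (1 + δ)`. -/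
theorem result : ∃ δ C : ℝ, 0 < δ ∧ ∀ X : ℕ, 1 ≤ X →
    (({n : ℕ | ∃ a b : ℕ, 0 < a ∧ 0 < b ∧ Nat.Coprime a b ∧ a + b ≤ X ∧
      ((∏ p ∈ (a * b * (a + b)).primeFactors, p : ℕ) : ℝ) ≤ ((a + b : ℕ) : ℝ) ^ (1 + δ) ∧
      (n = a ∨ n = b ∨ n = a + b)}.ncard : ℕ) : ℝ) ≤ C * (X : ℝ) ^ (1 / 2 - δ) := by
  classical
  obtain ⟨δ, C, hδ, h⟩ := Pool.Agent.Helper21.EN.all_thm
  refine ⟨δ, C, hδ, fun X hX => ?_⟩
  refine le_trans (le_of_eq ?_) (h X hX)
  rw [Nat.cast_inj, ← Set.ncard_coe_finset]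
  congr 1
  ext n
  rw [Set.mem_setOf_eq, Finset.mem_coe, Finset.mem_filter, Finset.mem_Icc]
  constructor
  · rintro ⟨a, b, ha, hb, hab, hX', hr, hn⟩
    refine ⟨⟨?_, ?_⟩, a, b, ha, hb, hab, hX', hr, hn⟩ <;> rcases hn with hn | hn | hn <;> omega
  · rintro ⟨_, a, b, ha, hb, hab, hX', hr, hn⟩
    exact ⟨a, b, ha, hb, hab, hX', hr, hn⟩

end Pool.Agent.Results.MP_4ab349_nt.ExceptionalEntries
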