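import Mathlib
import Pool.Agent.Helper11.ABC.Final
import Pool.Agent.Helper92.ABC.Assembly

set_option autoImplicit false

/-!
# The exceptional set in the abc conjecture

The number of coprime pairs `(a, b)` of positive integers with `a + b = c ≤ X` and
`rad(abc) ≤ c ^ 1.001` is `O(X ^ 0.603)`.
-/

namespace Pool.Agent.Results.MP_4ab349_nt.ExceptionalSet

open Finset

/-- There is a constant `C` such that for every natural number `X` the number of pairs `(a, b)` of
coprime positive integers with `c = a + b ≤ X` and `rad(abc) ≤ c ^ (1 + 1 / 1000)` is at most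
`C X ^ (603 / 1000)`; here `rad` is the product of the distinct prime divisors. -/
theorem result : ∃ C : ℝ, ∀ X : ℕ,
    (((Icc 1 X ×ˢ Icc 1 X).filter (fun t : ℕ × ℕ =>
      t.1.Coprime t.2 ∧ t.1 + t.2 ≤ X ∧
        ((∏ p ∈ (t.1 * t.2 * (t.1 + t.2)).primeFactors, p : ℕ) : ℝ) ≤
          ((t.1 + t.2 : ℕ) : ℝ) ^ (1001 / 1000 : ℝ))).card : ℝ) ≤
      C * (X : ℝ) ^ (603 / 1000 : ℝ) :=
  Pool.Agent.Helper92.ABC.final_of_box 10000000 10010000 (by norm_num) (603 / 1000)
    (1001 / 1000) (by norm_num) (by norm_num) (by norm_num) Pool.Agent.Helper92.ABC.box_bound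

end Pool.Agent.Results.MP_4ab349_nt.ExceptionalSet
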